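import Pool.Agent.H97.SHL.Targets

/-!
Short lines at the scale of SETH (MP_c62aed_lc): row (OVB), the number of the parts.
-/

set_option autoImplicit false

namespace Pool.Agent.H13.SHL

open Finset Pool.Agent.H97.SHL

/-- points which agree on `A` -/
theorem card_agr {m B : ℕ} (P : Finset (Pt m B)) (A : Finset (Fin m)) (h : Agr P A) :
    P.card * B ^ A.card ≤ B ^ m := by
  classical
  have h1 : P.card ≤ B ^ (m - A.card) := by
    have h2 : P.card ≤ (univ : Finset (↥(Aᶜ) → Fin B)).card := by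
      refine card_le_card_of_injOn (fun x i => x i.1) (fun _ _ => mem_coe.2 (mem_univ _)) ?_
      intro x hx y hy e
      funext i
      by_cases hi : i ∈ A
      · exact h x hx y hy i hi
      · exact congrFun e ⟨i, mem_compl.2 hi⟩
    rw [card_univ, Fintype.card_fun, Fintype.card_fin, Fintype.card_coe, card_compl,
      Fintype.card_fin] at h2
    exact h2
  have h3 : A.card ≤ m := by
    have := card_le_univ A
    rwa [Fintype.card_fin] at this
  calc P.card * B ^ A.card ≤ B ^ (m - A.card) * B ^ A.card := Nat.mul_le_mul_right _ h1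
    _ = B ^ m := by rw [← pow_add, Nat.sub_add_cancel h3]

/-- (OVB) -/
theorem pf_OVB : T_OVB := by
  intro m B s a₀ Q 𝒟 hs hsB hD
  have hB : 1 ≤ B := le_trans hs hsB
  have hB0 : (0 : ℝ) < B := by exact_mod_cast hB
  have hs1 : (1 : ℝ) ≤ s := by exact_mod_cast hs
  have hs0 : (0 : ℝ) ≤ s := le_trans zero_le_one hs1
  have hlg : 0 ≤ lg m B := by
    unfold lg
    have := Real.log_natCast_nonneg B
    positivity
  have hcard : ∀ A : Finset (Fin m), A.card ≤ m := fun A => by
    have := card_le_univ A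
    rwa [Fintype.card_fin] at this
  constructor
  · have h1 : 𝒟.card = ∑ k ∈ range (m + 1), (𝒟.filter fun p => p.2.card = k).card :=
      card_eq_sum_card_fiberwise fun p _ =>
        mem_coe.2 (mem_range.2 (Nat.lt_succ_of_le (hcard p.2)))
    rw [h1, Nat.cast_sum]
    calc ∑ k ∈ range (m + 1), (((𝒟.filter fun p => p.2.card = k).card : ℕ) : ℝ)
        ≤ ∑ k ∈ range (m + 1), lg m B * (s : ℝ) ^ m := by
          refine sum_le_sum fun k hk => (hD.num k).trans ?_
          exact mul_le_mul_of_nonneg_left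
            (pow_le_pow_right₀ hs1 (Nat.lt_succ_iff.1 (mem_range.1 hk))) hlg
      _ = pcc m B s := by
          rw [sum_const, card_range, nsmul_eq_mul]
          unfold pcc
          push_cast
          ring
  · have hr0 : (0 : ℝ) ≤ (s : ℝ) / B := div_nonneg hs0 hB0.le
    have hr1 : (s : ℝ) / B ≤ 1 := by
      rw [div_le_one hB0]
      exact_mod_cast hsB
    have h1 : ∑ p ∈ 𝒟.filter (fun p => ¬ p.2.card ≤ a₀), (p.1.card : ℝ) =
        ∑ k ∈ Ioc a₀ m, ∑ p ∈ (𝒟.filter (fun p => ¬ p.2.card ≤ a₀)).filter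
          (fun p => p.2.card = k), (p.1.card : ℝ) := by
      rw [sum_fiberwise_of_maps_to]
      intro p hp
      rw [mem_filter] at hp
      rw [mem_Ioc]
      exact ⟨by omega, hcard p.2⟩
    rw [h1]
    have h2 : ∀ k ∈ Ioc a₀ m, ∑ p ∈ (𝒟.filter (fun p => ¬ p.2.card ≤ a₀)).filter
          (fun p => p.2.card = k), (p.1.card : ℝ) ≤
        lg m B * ((s : ℝ) / B) ^ a₀ * (B : ℝ) ^ m := by
      intro k hk
      rw [mem_Ioc] at hk
      calc ∑ p ∈ (𝒟.filter (fun p => ¬ p.2.card ≤ a₀)).filter (fun p => p.2.card = k),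
            (p.1.card : ℝ)
          ≤ ∑ p ∈ 𝒟.filter (fun p => p.2.card = k), (p.1.card : ℝ) := by
            refine sum_le_sum_of_subset_of_nonneg ?_ fun p _ _ => Nat.cast_nonneg _
            intro p hp
            rw [mem_filter, mem_filter] at hp
            rw [mem_filter]
            exact ⟨hp.1.1, hp.2⟩
        _ ≤ ∑ p ∈ 𝒟.filter (fun p => p.2.card = k), (B : ℝ) ^ m / (B : ℝ) ^ k := by
            refine sum_le_sum fun p hp => ?_
            rw [mem_filter] at hp
            rw [le_div_iff₀ (pow_pos hB0 k), ← hp.2]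
            exact_mod_cast card_agr p.1 p.2 (hD.agr p hp.1)
        _ = ((𝒟.filter fun p => p.2.card = k).card : ℝ) * ((B : ℝ) ^ m / (B : ℝ) ^ k) := by
            rw [sum_const, nsmul_eq_mul]
        _ ≤ lg m B * (s : ℝ) ^ k * ((B : ℝ) ^ m / (B : ℝ) ^ k) :=
            mul_le_mul_of_nonneg_right (hD.num k) (by positivity)
        _ = lg m B * ((s : ℝ) / B) ^ k * (B : ℝ) ^ m := by
            rw [div_pow]
            ring
        _ ≤ lg m B * ((s : ℝ) / B) ^ a₀ * (B : ℝ) ^ m := by
            refine mul_le_mul_of_nonneg_right ?_ (by positivity)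
            exact mul_le_mul_of_nonneg_left (pow_le_pow_of_le_one hr0 hr1 hk.1.le) hlg
    have hX : 0 ≤ lg m B * ((s : ℝ) / B) ^ a₀ * (B : ℝ) ^ m := by positivity
    calc ∑ k ∈ Ioc a₀ m, ∑ p ∈ (𝒟.filter (fun p => ¬ p.2.card ≤ a₀)).filter
            (fun p => p.2.card = k), (p.1.card : ℝ)
        ≤ ∑ k ∈ Ioc a₀ m, lg m B * ((s : ℝ) / B) ^ a₀ * (B : ℝ) ^ m := sum_le_sum h2
      _ = ((m - a₀ : ℕ) : ℝ) * (lg m B * ((s : ℝ) / B) ^ a₀ * (B : ℝ) ^ m) := by
          rw [sum_const, Nat.card_Ioc, nsmul_eq_mul]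
      _ ≤ (m : ℝ) * (lg m B * ((s : ℝ) / B) ^ a₀ * (B : ℝ) ^ m) := by
          refine mul_le_mul_of_nonneg_right ?_ hX
          exact_mod_cast Nat.sub_le m a₀
      _ = Yc m B s a₀ := by
          unfold Yc
          ring

end Pool.Agent.H13.SHL
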